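import Mathlib
import Pool.Agent.Helper14.BSC.Stmts

set_option autoImplicit false

namespace Pool.Agent.Helper14.BSC

theorem bb_sq {N : Type} [Field N] (O : ValuationSubring N) (z : N) (h : z ^ 2 ∈ O) : z ∈ O := by
  rcases O.mem_or_inv_mem z with h1 | h1
  · exact h1
  · by_cases hz : z = 0
    · rw [hz]; exact O.zero_mem
    · have : z = z ^ 2 * z⁻¹ := by field_simp
      rw [this]
      exact O.mul_mem _ _ h h1

theorem bb_mul {N : Type} [Field N] (O : ValuationSubring N) (π x y : N)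
    (hx : ∀ n : ℕ, 0 < n → π * x ^ n ∈ O) (hy : ∀ n : ℕ, 0 < n → π * y ^ n ∈ O) :
    ∀ n : ℕ, 0 < n → π * (x * y) ^ n ∈ O := by
  intro n hn
  apply bb_sq
  have h1 := O.mul_mem _ _ (hx (2 * n) (by omega)) (hy (2 * n) (by omega))
  have h2 : (π * (x * y) ^ n) ^ 2 = π * x ^ (2 * n) * (π * y ^ (2 * n)) := by
    rw [mul_pow x y n, pow_mul' x 2 n, pow_mul' y 2 n]
    ring
  rw [h2]
  exact h1

theorem bb_sub {N : Type} [Field N] (O : ValuationSubring N) (π x : N) (hπ : π ∈ O) (hx : x ∈ O) :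
    ∀ n : ℕ, 0 < n → π * x ^ n ∈ O := fun n _ => O.mul_mem _ _ hπ (pow_mem hx n)

theorem bb_add {N : Type} [Field N] (O : ValuationSubring N) (π x y : N) (hπ : π ∈ O)
    (hx : ∀ n : ℕ, 0 < n → π * x ^ n ∈ O) (hy : ∀ n : ℕ, 0 < n → π * y ^ n ∈ O) :
    ∀ n : ℕ, 0 < n → π * (x + y) ^ n ∈ O := by
  by_cases hx0 : x = 0
  · subst hx0; rw [zero_add]; exact hy
  by_cases hy0 : y = 0
  · subst hy0; rw [add_zero]; exact hx
  rcases O.mem_or_inv_mem (x / y) with h1 | h1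
  · have h2 : x + y = (x / y + 1) * y := by field_simp
    rw [h2]
    exact bb_mul O π _ _ (bb_sub O π _ hπ (O.add_mem _ _ h1 O.one_mem)) hy
  · have h2 : x + y = (1 + (x / y)⁻¹) * x := by field_simp
    rw [h2]
    exact bb_mul O π _ _ (bb_sub O π _ hπ (O.add_mem _ _ O.one_mem h1)) hx

theorem st_BB : ST_BB := by
  intro k Ω _ _ _ _ _ D p _ Lc O hO
  have hπ : piN D Lc ∈ O := (hO ⟨Lc.π, Lc.memπ⟩).2 Lc.ltπ.le
  let B : ValuationSubring (NN D Lc.S₁) :=
    { carrier := {x | ∀ n : ℕ, 0 < n → piN D Lc * x ^ n ∈ O}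
      mul_mem' := fun {x y} hx hy => bb_mul O _ x y hx hy
      one_mem' := bb_sub O _ 1 hπ O.one_mem
      add_mem' := fun {x y} hx hy => bb_add O _ x y hπ hx hy
      zero_mem' := bb_sub O _ 0 hπ O.zero_mem
      neg_mem' := by
        intro x hx
        have h := bb_mul O (piN D Lc) (-1) x (bb_sub O _ _ hπ (O.neg_mem _ O.one_mem)) hx
        rw [neg_one_mul] at h
        exact h
      mem_or_inv_mem' := by
        intro x
        rcases O.mem_or_inv_mem x with h | h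
        · exact Or.inl (bb_sub O _ _ hπ h)
        · exact Or.inr (bb_sub O _ _ hπ h) }
  refine ⟨B, fun x => Iff.rfl, fun x => ⟨fun hx => ?_, fun hx => ?_⟩⟩
  · by_contra hlt
    push Not at hlt
    have h1 : ∀ n : ℕ, 0 < n → nm Lc Lc.π * nm Lc x ^ n ≤ 1 := by
      intro n hn
      have h2 := hx n hn
      have h3 : piN D Lc * inc D Lc.S₁ x ^ n = inc D Lc.S₁ (⟨Lc.π, Lc.memπ⟩ * x ^ n) := by
        rw [map_mul, map_pow]; rfl
      rw [h3] at h2
      have h4 := (hO _).1 h2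
      have h5 : nm Lc ((⟨Lc.π, Lc.memπ⟩ * x ^ n : FF Lc.S₁) : Acl k Ω) =
          nm Lc Lc.π * nm Lc x ^ n := by
        simp only [nm, IntermediateField.coe_mul, IntermediateField.coe_pow, map_mul, map_pow,
          norm_mul, norm_pow]
      rw [h5] at h4
      exact h4
    have hpos : 0 < nm Lc Lc.π := Lc.posπ
    obtain ⟨n, hn⟩ := pow_unbounded_of_one_lt (nm Lc Lc.π)⁻¹ hlt
    have h6 : (nm Lc Lc.π)⁻¹ < nm Lc x ^ (n + 1) := lt_of_lt_of_le hn
      (pow_le_pow_right₀ hlt.le (Nat.le_succ n))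
    have h7 := h1 (n + 1) (Nat.succ_pos n)
    have h8 : 1 < nm Lc Lc.π * nm Lc x ^ (n + 1) := by
      calc (1 : ℝ) = nm Lc Lc.π * (nm Lc Lc.π)⁻¹ := (mul_inv_cancel₀ hpos.ne').symm
        _ < _ := mul_lt_mul_of_pos_left h6 hpos
    exact absurd h7 (not_le.2 h8)
  · exact bb_sub O _ _ hπ ((hO x).2 hx)

end Pool.Agent.Helper14.BSC
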