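import Mathlib
import Pool.Agent.Helper14.BSC.Stmts

set_option autoImplicit false

namespace Pool.Agent.Helper14.BSC

open Polynomial

theorem st_BOT : ST_BOT := by
  intro k Ω _ _ _ _ _ x hx
  have : IsAlgClosed (Acl k Ω) := IsAlgClosure.isAlgClosed k
  have : Normal k (Acl k Ω) := IsAlgClosure.normal k (Acl k Ω)
  have : IsGalois k (Acl k Ω) := { }
  have h1 : x ∈ IntermediateField.fixedField (⊤ : Subgroup (GG k Ω)) := by
    intro g
    exact hx g.1 (by intro a ha; exact absurd ha (Set.notMem_empty a))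
  rw [InfiniteGalois.fixedField_bot] at h1
  obtain ⟨c, hc⟩ := IntermediateField.mem_bot.1 h1
  exact ⟨c, hc.symm⟩

end Pool.Agent.Helper14.BSC
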