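import Mathlib
import Pool.Agent.Helper14.BSC.Stmts

set_option autoImplicit false

namespace Pool.Agent.Helper14.BSC

open Polynomial

section

variable {k Ω : Type} [Field k] [Field Ω] [Algebra k Ω]

theorem extw_prim [CharZero k] (D : Sec k Ω) (x : Ω) :
    ∃ θ : Acl k Ω, ∀ g : GG k Ω, g θ = θ → D.s g x = x := by
  obtain ⟨E0, hE0⟩ := D.fin x
  have hint : ∀ a ∈ (E0 : Set (Acl k Ω)), IsIntegral k a :=
    fun a _ => Algebra.IsIntegral.isIntegral a
  have : FiniteDimensional k (IntermediateField.adjoin k (E0 : Set (Acl k Ω))) :=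
    IntermediateField.finiteDimensional_adjoin hint
  obtain ⟨α, hα⟩ := Field.exists_primitive_element k
    (IntermediateField.adjoin k (E0 : Set (Acl k Ω)))
  refine ⟨(α : Acl k Ω), fun g hg => hE0 g fun a ha => ?_⟩
  have h1 : a ∈ IntermediateField.adjoin k (E0 : Set (Acl k Ω)) :=
    IntermediateField.subset_adjoin _ _ ha
  have h3 : IntermediateField.adjoin k {α} ≤
      (FF {(α : Acl k Ω)}).comap (IntermediateField.adjoin k (E0 : Set (Acl k Ω))).val := by
    rw [IntermediateField.adjoin_le_iff]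
    rintro b hb
    rw [Set.mem_singleton_iff] at hb
    subst hb
    exact subset_FF {(b : Acl k Ω)} rfl
  have h2 : (⟨a, h1⟩ : IntermediateField.adjoin k (E0 : Set (Acl k Ω))) ∈
      IntermediateField.adjoin k {α} := by
    rw [hα]; trivial
  have h4 := h3 h2
  have h5 : a ∈ FF {(α : Acl k Ω)} := h4
  refine h5 g ?_
  intro b hb
  rw [Set.mem_singleton_iff] at hb
  rw [hb, hg]

theorem extw_rep [CharZero k] [IsAlgClosed Ω] (D : Sec k Ω) (x : Ω) :
    ∃ (θ : Acl k Ω) (l : ℕ → LL D),
      x = ∑ i ∈ Finset.range (minpoly k θ).natDegree, (l i : Ω) * (θ : Ω) ^ i := by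
  classical
  obtain ⟨θ, hθ⟩ := extw_prim D x
  have : IsAlgClosed (Acl k Ω) := IsAlgClosure.isAlgClosed k
  have : Normal k (Acl k Ω) := IsAlgClosure.normal k (Acl k Ω)
  have hint : IsIntegral k θ := Algebra.IsIntegral.isIntegral θ
  set n := (minpoly k θ).natDegree with hn
  have hnpos : 0 < n := minpoly.natDegree_pos hint
  let R : Finset (Acl k Ω) := ((minpoly k θ).aroots (Acl k Ω)).toFinset
  have hmem : ∀ ρ : Acl k Ω, ρ ∈ R ↔ aeval ρ (minpoly k θ) = 0 := by
    intro ρ
    simp only [R, Multiset.mem_toFinset]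
    rw [mem_aroots]
    exact ⟨fun h => h.2, fun h => ⟨minpoly.ne_zero hint, h⟩⟩
  have hcard : R.card = n := by
    have hsep : (minpoly k θ).Separable := (minpoly.irreducible hint).separable
    have h1 : Multiset.card ((minpoly k θ).aroots (Acl k Ω)) = n := by
      rw [aroots_def]
      have h2 := (IsAlgClosed.splits ((minpoly k θ).map (algebraMap k (Acl k Ω)))).natDegree_eq_card_roots
      rw [← h2, natDegree_map]
    have h3 : ((minpoly k θ).aroots (Acl k Ω)).Nodup := nodup_aroots_iff_of_splits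
      (minpoly.ne_zero hint) (IsAlgClosed.splits _) |>.2 hsep
    rw [← h1]
    exact Multiset.toFinset_card_of_nodup h3
  have hex : ∀ ρ ∈ R, ∃ g : GG k Ω, g θ = ρ := by
    intro ρ hρ
    exact minpoly.exists_algEquiv_of_root' hint.isAlgebraic ((hmem ρ).1 hρ)
  have hR : ∀ (g : GG k Ω) (ρ : Acl k Ω), ρ ∈ R → g ρ ∈ R := by
    intro g ρ hρ
    rw [hmem] at hρ ⊢
    have := congrArg g hρ
    rw [map_zero] at this
    rw [← this]
    exact Polynomial.aeval_algHom_apply (g : Acl k Ω →ₐ[k] Acl k Ω) ρ (minpoly k θ)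
  have hθR : θ ∈ R := (hmem θ).2 (minpoly.aeval k θ)
  let gf : Acl k Ω → GG k Ω := fun ρ => if h : ∃ g : GG k Ω, g θ = ρ then h.choose else 1
  have hgf : ∀ ρ ∈ R, gf ρ θ = ρ := by
    intro ρ hρ
    simp only [gf, dif_pos (hex ρ hρ)]
    exact (hex ρ hρ).choose_spec
  let r : Acl k Ω → Ω := fun ρ => D.s (gf ρ) x
  have hr : ∀ (g : GG k Ω) (ρ : Acl k Ω), ρ ∈ R → g θ = ρ → D.s g x = r ρ := by
    intro g ρ hρ hg
    have h1 : ((gf ρ)⁻¹ * g) θ = θ := by
      rw [AlgEquiv.mul_apply, hg]
      calc (gf ρ)⁻¹ ρ = (gf ρ)⁻¹ (gf ρ θ) := by rw [hgf ρ hρ]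
        _ = θ := by rw [← AlgEquiv.mul_apply, inv_mul_cancel]; rfl
    have h2 := hθ _ h1
    have h3 : D.s g = D.s (gf ρ) * D.s ((gf ρ)⁻¹ * g) := by
      rw [← map_mul, mul_inv_cancel_left]
    rw [h3, AlgEquiv.mul_apply, h2]
  have hinj : Set.InjOn (fun ρ : Acl k Ω => (ρ : Ω)) (R : Set (Acl k Ω)) :=
    fun a _ b _ h => Subtype.ext h
  set P0 : Polynomial Ω := Lagrange.interpolate R (fun ρ : Acl k Ω => (ρ : Ω)) r with hP0
  have hdeg : P0.degree < n := by
    rw [← hcard]; exact Lagrange.degree_interpolate_lt r hinj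
  have hinv : ∀ h : GG k Ω, P0.map ((D.s h : Ω ≃ₐ[k] Ω) : Ω →+* Ω) = P0 := by
    intro h
    rw [hP0]
    refine Lagrange.eq_interpolate_of_eval_eq r hinj ?_ ?_
    · refine lt_of_le_of_lt degree_map_le ?_
      exact Lagrange.degree_interpolate_lt r hinj
    · intro ρ hρ
      have hρ' : h⁻¹ ρ ∈ R := hR _ _ hρ
      have h1 : h (h⁻¹ ρ) = ρ := by
        rw [← AlgEquiv.mul_apply, mul_inv_cancel]; rfl
      have h2 : (ρ : Ω) = ((D.s h : Ω ≃ₐ[k] Ω) : Ω →+* Ω) ((h⁻¹ ρ : Acl k Ω) : Ω) := by
        have := D.ext h (h⁻¹ ρ)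
        rw [h1] at this
        exact this.symm
      show eval (ρ : Ω) _ = _
      rw [h2, eval_map_apply]
      have h3 := Lagrange.eval_interpolate_at_node (s := R) (v := fun ρ : Acl k Ω => (ρ : Ω)) r
        hinj hρ'
      have h4 : eval ((h⁻¹ ρ : Acl k Ω) : Ω) (Lagrange.interpolate R (fun ρ : Acl k Ω => (ρ : Ω)) r)
          = r (h⁻¹ ρ) := h3
      rw [h4]
      have h5 : (h * gf (h⁻¹ ρ)) θ = ρ := by
        rw [AlgEquiv.mul_apply, hgf _ hρ', h1]
      have h6 := hr _ ρ hρ h5
      rw [map_mul, AlgEquiv.mul_apply] at h6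
      exact h6
  have hco : ∀ i, P0.coeff i ∈ LL D := by
    intro i g _
    have := congrArg (fun p : Polynomial Ω => p.coeff i) (hinv g)
    simp only [coeff_map] at this
    exact this
  refine ⟨θ, fun i => ⟨P0.coeff i, hco i⟩, ?_⟩
  have hnd : P0.natDegree < n := by
    by_cases h0 : P0 = 0
    · rw [h0, natDegree_zero]; exact hnpos
    · exact (natDegree_lt_iff_degree_lt h0).2 hdeg
  have h7 : eval (θ : Ω) P0 = r θ := Lagrange.eval_interpolate_at_node (s := R)
    (v := fun ρ : Acl k Ω => (ρ : Ω)) r hinj hθR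
  have h8 : D.s 1 x = r θ := hr 1 θ hθR rfl
  rw [map_one] at h8
  have h9 : x = r θ := h8
  rw [← eval_eq_sum_range' hnd, h7]
  exact h9

theorem extw_int (W : ValuationSubring Ω) (hk : ∀ c : k, algebraMap k Ω c ∈ W) (a : Acl k Ω) :
    (a : Ω) ∈ W := by
  have hint : IsIntegral k (a : Ω) := (mem_algebraicClosure_iff'.1 a.2)
  obtain ⟨q, hq, hq0⟩ := hint
  have hW : IsIntegral W (a : Ω) := by
    let f : k →+* W := (algebraMap k Ω).codRestrict W.toSubring hk
    refine ⟨q.map f, hq.map f, ?_⟩
    rw [eval₂_map]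
    exact hq0
  obtain ⟨y, hy⟩ := IsIntegrallyClosed.isIntegral_iff.1 hW
  rw [← hy]
  exact y.2

theorem extw_unit (W : ValuationSubring Ω) (hk : ∀ c : k, algebraMap k Ω c ∈ W) (a : Acl k Ω)
    (ha : a ≠ 0) : W.valuation (a : Ω) = 1 := by
  have h1 : W.valuation (a : Ω) ≤ 1 := (W.valuation_le_one_iff _).2 (extw_int W hk a)
  have h2 : W.valuation ((a⁻¹ : Acl k Ω) : Ω) ≤ 1 :=
    (W.valuation_le_one_iff _).2 (extw_int W hk a⁻¹)
  have h3 : W.valuation (a : Ω) * W.valuation ((a⁻¹ : Acl k Ω) : Ω) = 1 := by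
    rw [← map_mul]
    have : (a : Ω) * ((a⁻¹ : Acl k Ω) : Ω) = 1 := by
      rw [← IntermediateField.coe_mul, mul_inv_cancel₀ ha]; rfl
    rw [this, map_one]
  refine le_antisymm h1 ?_
  by_contra h
  push Not at h
  have : W.valuation (a : Ω) * W.valuation ((a⁻¹ : Acl k Ω) : Ω) < 1 := mul_lt_one_of_lt_of_le h h2
  rw [h3] at this
  exact lt_irrefl _ this

theorem st_EXTW : ST_EXTW := by
  intro k Ω _ _ _ _ _ D C hC hres
  classical
  obtain ⟨W, hW, hloc⟩ := IsLocalRing.exists_factor_valuationRing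
    ((algebraMap (LL D) Ω).comp C.subtype)
  have hWC : ∀ x : LL D, (x : Ω) ∈ W ↔ x ∈ C := by
    intro x
    constructor
    · intro hx
      by_contra hxC
      have hx0 : x ≠ 0 := by rintro rfl; exact hxC C.zero_mem
      have h1 : x⁻¹ ∈ C := (C.mem_or_inv_mem x).resolve_left hxC
      have h2 : IsUnit ((((algebraMap (LL D) Ω).comp C.subtype).codRestrict W.toSubring hW)
          ⟨x⁻¹, h1⟩) := by
        refine IsUnit.of_mul_eq_one ⟨(x : Ω), hx⟩ ?_
        apply Subtype.ext
        show ((x⁻¹ : LL D) : Ω) * (x : Ω) = 1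
        rw [← IntermediateField.coe_mul, inv_mul_cancel₀ hx0]; rfl
      have h3 : IsUnit (⟨x⁻¹, h1⟩ : C) := hloc.map_nonunit _ h2
      obtain ⟨y, hy⟩ := h3.exists_right_inv
      have h4 : x⁻¹ * (y : LL D) = 1 := congrArg Subtype.val hy
      have h5 : x = y := by
        have := congrArg (fun z => x * z) h4
        simp only [mul_one] at this
        rw [← mul_assoc, mul_inv_cancel₀ hx0, one_mul] at this
        exact this.symm
      exact hxC (h5 ▸ y.2)
    · intro hx
      exact hW ⟨x, hx⟩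
  have hk : ∀ c : k, algebraMap k Ω c ∈ W := by
    intro c
    exact (hWC (algebraMap k (LL D) c)).2 (hC c)
  have hlt : ∀ x : LL D, C.valuation x < 1 → W.valuation (x : Ω) < 1 := by
    intro x hx
    by_cases h0 : x = 0
    · subst h0
      rw [ZeroMemClass.coe_zero, map_zero]
      exact zero_lt_one
    · have h1 : x⁻¹ ∉ C := by
        intro h
        have h2 := (C.valuation_le_one_iff _).2 h
        rw [map_inv₀] at h2
        have h3 : 1 < (C.valuation x)⁻¹ := (one_lt_inv₀ (by
          rw [Valuation.pos_iff]; exact h0)).2 hx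
        exact absurd h2 (not_le.2 h3)
      have h4 : ((x⁻¹ : LL D) : Ω) ∉ W := fun h => h1 ((hWC _).1 h)
      rw [← W.valuation_le_one_iff, not_le, IntermediateField.coe_inv, map_inv₀] at h4
      exact (one_lt_inv₀ (by
        rw [Valuation.pos_iff]
        intro h
        exact h0 (Subtype.ext h))).1 h4
  have hval : ∀ (x : Ω) (g : GG k Ω), W.valuation (D.s g x) = W.valuation x := by
    intro x
    by_cases hx0 : x = 0
    · intro g; rw [hx0, map_zero]
    obtain ⟨θ, l, hl⟩ := extw_rep D x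
    have hint : IsIntegral k θ := Algebra.IsIntegral.isIntegral θ
    set n := (minpoly k θ).natDegree with hn
    have hnpos : 0 < n := minpoly.natDegree_pos hint
    obtain ⟨j, hj, hmax⟩ := Finset.exists_max_image (Finset.range n)
      (fun i => C.valuation (l i)) ⟨0, Finset.mem_range.2 hnpos⟩
    have hlj : l j ≠ 0 := by
      intro h0
      apply hx0
      rw [hl]
      refine Finset.sum_eq_zero fun i hi => ?_
      have h1 := hmax i hi
      simp only [h0, map_zero, le_zero_iff] at h1
      have h2 : l i = 0 := (Valuation.zero_iff _).1 h1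
      rw [h2]
      simp
    have hq : ∀ i ∈ Finset.range n, l i / l j ∈ C := by
      intro i hi
      rw [← C.valuation_le_one_iff, map_div₀]
      have h1 := hmax i hi
      have h2 : 0 < C.valuation (l j) := by rw [Valuation.pos_iff]; exact hlj
      exact (div_le_one₀ h2).2 h1
    have hc : ∀ i : ℕ, ∃ c : k, i ∈ Finset.range n →
        C.valuation (l i / l j - algebraMap k (LL D) c) < 1 := by
      intro i
      by_cases hi : i ∈ Finset.range n
      · obtain ⟨c, hc⟩ := hres _ (hq i hi)
        exact ⟨c, fun _ => hc⟩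
      · exact ⟨0, fun h => absurd h hi⟩
    choose c hc using hc
    let a : Acl k Ω := ∑ i ∈ Finset.range n, algebraMap k (Acl k Ω) (c i) * θ ^ i
    have hcj : c j ≠ 0 := by
      intro h0
      have h1 := hc j hj
      rw [h0, map_zero, sub_zero, div_self hlj, map_one] at h1
      exact lt_irrefl _ h1
    have ha : a ≠ 0 := by
      intro h0
      let q : Polynomial k := ∑ i ∈ Finset.range n, Polynomial.C (c i) * X ^ i
      have h1 : aeval θ q = 0 := by
        rw [← h0]
        simp only [q, a, map_sum, map_mul, aeval_C, map_pow, aeval_X]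
      have h2 := minpoly.dvd k θ h1
      have h3 : q.coeff j = c j := by
        simp only [q, finsetSum_coeff, coeff_C_mul, coeff_X_pow]
        rw [Finset.sum_eq_single j]
        · simp
        · intro b _ hb
          rw [if_neg (Ne.symm hb), mul_zero]
        · intro h; exact absurd hj h
      have h4 : q.degree < (minpoly k θ).degree := by
        rw [degree_eq_natDegree (minpoly.ne_zero hint), ← hn]
        have h6 : q = ∑ i : Fin n, Polynomial.C (c i) * X ^ (i : ℕ) := by
          simp only [q]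
          rw [Finset.sum_range]
        rw [h6]
        exact degree_sum_fin_lt _
      have h5 := eq_zero_of_dvd_of_degree_lt h2 h4
      rw [h5, coeff_zero] at h3
      exact hcj h3.symm
    have hkey : ∀ g : GG k Ω, W.valuation (D.s g x) = W.valuation ((l j : LL D) : Ω) := by
      intro g
      have hfix : ∀ y : LL D, D.s g (y : Ω) = y := fun y => y.2 g (by intro b hb; exact absurd hb (Set.notMem_empty b))
      have h1 : D.s g x = ((l j : LL D) : Ω) * ((g a : Acl k Ω) +
          ∑ i ∈ Finset.range n, ((l i / l j - algebraMap k (LL D) (c i) : LL D) : Ω) *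
            ((g θ : Acl k Ω) : Ω) ^ i) := by
        have h2 : ((g a : Acl k Ω) : Ω) = ∑ i ∈ Finset.range n, algebraMap k Ω (c i) *
            ((g θ : Acl k Ω) : Ω) ^ i := by
          simp only [a, map_sum, map_mul, map_pow, AlgEquiv.commutes]
          push_cast
          rfl
        rw [h2, ← Finset.sum_add_distrib, Finset.mul_sum, hl, map_sum]
        refine Finset.sum_congr rfl fun i _ => ?_
        rw [map_mul, map_pow, D.ext, hfix]
        have hlj' : ((l j : LL D) : Ω) ≠ 0 := fun h => hlj (Subtype.ext h)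
        have h3 : ((l i / l j - algebraMap k (LL D) (c i) : LL D) : Ω) =
            (l i : Ω) / (l j : Ω) - algebraMap k Ω (c i) := rfl
        rw [h3]
        field_simp
        ring
      rw [h1, map_mul]
      have h4 : W.valuation (∑ i ∈ Finset.range n,
          ((l i / l j - algebraMap k (LL D) (c i) : LL D) : Ω) *
            ((g θ : Acl k Ω) : Ω) ^ i) < 1 := by
        refine Valuation.map_sum_lt _ one_ne_zero ?_
        intro i hi
        rw [map_mul, map_pow]
        have h5 := hlt _ (hc i hi)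
        have h6 : W.valuation ((g θ : Acl k Ω) : Ω) ≤ 1 :=
          (W.valuation_le_one_iff _).2 (extw_int W hk _)
        exact mul_lt_one_of_lt_of_le h5 (pow_le_one' h6 i)
      have h7 : W.valuation ((g a : Acl k Ω) : Ω) = 1 := extw_unit W hk _ (by
        intro h
        exact ha ((map_eq_zero_iff g g.injective).1 h))
      rw [Valuation.map_add_eq_of_lt_left _ (by rw [h7]; exact h4), h7, mul_one]
    intro g
    have h1 := hkey g
    have h2 := hkey 1
    rw [map_one] at h2
    rw [h1]
    exact h2.symm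
  refine ⟨W, hWC, fun g x => ?_⟩
  rw [← W.valuation_le_one_iff, ← W.valuation_le_one_iff, hval]

end

end Pool.Agent.Helper14.BSC
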